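import Pool.Agent.Helper290.Calk.Main

set_option autoImplicit false

/-!
# MP_10cf3c_an: a maximal filter of projections of the Calkin algebra that does not lift

The answer to Q1 is negative, in ZFC.

Sketch of the proof. Split an orthonormal basis of `H` into finite blocks `H_{m,k}`, with
`dim H_{m,k} = n(m,k) = (m+2) d(m,k)` and `d(m,k)` large. The base projections are the projections
onto the complement of a sum of subspaces `V_{m,k}` of the blocks for which
`limsup_k dim V_{m,k} / n(m,k)` tends to `0` as `m → ∞`; their images in the Calkin algebra are
nonzero and directed downwards, so some maximal filter `F` contains all of them. If `F` lifted, there
would be a maximal commuting family `B` of projections of `B(H)` and a family `M ⊆ B`, closed under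
products, whose image is cofinal in `F`. Let `z` be the projection onto the span of the joint
eigenvectors of `B`; then `F` contains the image of `z` or of `1 - z`.

* `1 - z`: countably many unit vectors, each almost disjointly supported on finitely many blocks and
  almost fixed by a given member of (a countable dense part of) `B`, are killed by one base
  projection; so no nonzero member of `B` below `1 - z` is below that base projection modulo compact
  operators.
* `z`: a probabilistic argument gives in every block a subspace of dimension `d(m,k)` on which all
  joint eigenvectors with mass at least `2^{-k}` in the block have a projection of mass at least
  `1/(8(m+2))` of their mass in the block. Hence the eigenvectors fixed by a suitable member of `M`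
  have masses in every region `⊕_k H_{m,k}` tending to zero, and then a second base projection, the
  complement of finitely many blocks in each region, kills them asymptotically.
-/

namespace Pool.Agent.Results.MP_10cf3c_an.NonLiftingFilter

open Pool.Agent.Helper290.Calk

/-- On every separable infinite-dimensional complex Hilbert space `H` there is a maximal filter of
projections of the Calkin algebra of `H` which does not lift. -/
theorem result (H : Type*) [NormedAddCommGroup H] [InnerProductSpace ℂ H] [CompleteSpace H]
    [TopologicalSpace.SeparableSpace H] (hinf : ¬ FiniteDimensional ℂ H) :
    ∃ F : Set (Calkin H), IsMaximalFilter F ∧ ¬ Lifts H F :=
  exists_maximal_not_lifts H hinf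

end Pool.Agent.Results.MP_10cf3c_an.NonLiftingFilter
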